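import Pool.Agent.TBP.StmtsA
import Pool.Agent.Helper69_Weyl.Divisor

/-!
Squad TBP, row FIN: all shifts.
-/

set_option autoImplicit false

namespace Pool.Agent.TBP.H80

open Finset

lemma WW_ge {J : ℕ} (hJ : 1 ≤ J) : J ≤ WW J := by
  have h2 : 2 ∣ primorial (2 ^ J) := by
    refine Nat.prime_two.dvd_primorial_iff.2 ?_
    calc 2 = 2 ^ 1 := by norm_num
      _ ≤ 2 ^ J := Nat.pow_le_pow_right (by norm_num) hJ
  have h3 : 2 ≤ primorial (2 ^ J) := Nat.le_of_dvd (primorial_pos _) h2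
  have h4 : 2 ^ (J + 1) ≤ WW J := Nat.pow_le_pow_left h3 _
  have h5 : J + 1 < 2 ^ (J + 1) := Nat.lt_two_pow_self
  omega

theorem fin (h : UniStmt) : FinStmt := by
  intro B hB σ hσ
  have hB0 : 0 < B := lt_trans (mul_pos (Real.exp_pos 1) (Real.log_pos (by norm_num))) hB
  obtain ⟨a, J0, F, ha, hF, hU⟩ := h B hB
  have ha0 : (0 : ℝ) < 4 * (a : ℝ) := by
    have : (1 : ℝ) ≤ (a : ℝ) := by exact_mod_cast ha
    linarith
  set δ : ℝ := B / (4 * (a : ℝ)) with hδ
  have hδ0 : 0 < δ := div_pos hB0 ha0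
  obtain ⟨Cd, hCd, hdiv⟩ := Pool.Agent.Helper69_Weyl.exists_card_divisors_le δ hδ0
  refine ⟨max F (Cd * 2 ^ δ), lt_max_of_lt_left (by linarith), ?_⟩
  intro N0
  set J : ℕ := max J0 (max N0 1) with hJ
  have hJ0 : J0 ≤ J := le_max_left _ _
  have hJN : N0 ≤ J := (le_max_left N0 1).trans (le_max_right _ _)
  obtain ⟨hJ1, hsize, t, ht1, htT, hk⟩ := hU J σ hJ0 hσ
  have hWW := WW_ge hJ1
  refine ⟨WW J * t, ?_, ?_⟩
  · calc N0 ≤ WW J := hJN.trans hWW
      _ = WW J * 1 := (mul_one _).symm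
      _ ≤ WW J * t := Nat.mul_le_mul_left _ ht1
  · intro k hk1
    have hk0 : (0 : ℝ) < (k : ℝ) := by exact_mod_cast hk1
    have hkB : (0 : ℝ) ≤ (k : ℝ) ^ B := Real.rpow_nonneg hk0.le _
    rcases le_or_gt k (lw J 0) with hle | hgt
    · have h1 := hk k (Finset.mem_Icc.2 ⟨hk1, hle⟩)
      have h2 : (((WW J * t : ℕ) : ℤ) + σ * k).natAbs = lf J σ k t := by
        unfold lf
        push_cast
        rfl
      rw [h2]
      exact h1.trans (mul_le_mul_of_nonneg_right (le_max_left _ _) hkB)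
    · set x : ℕ := (((WW J * t : ℕ) : ℤ) + σ * k).natAbs with hx
      have hxle : x ≤ WW J * t + k := by
        rcases hσ with rfl | rfl <;> omega
      have h1 : WW J * t ≤ k ^ (4 * a) := by
        calc WW J * t ≤ WW J * TT a J := Nat.mul_le_mul_left _ htT
          _ ≤ (lw J 0) ^ (4 * a) := hsize
          _ ≤ k ^ (4 * a) := Nat.pow_le_pow_left hgt.le _
      have h2 : k ≤ k ^ (4 * a) := by
        calc k = k ^ 1 := (pow_one k).symm
          _ ≤ k ^ (4 * a) := Nat.pow_le_pow_right hk1 (by omega)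
      have h3 : x ≤ 2 * k ^ (4 * a) := by omega
      by_cases hx0 : x = 0
      · rw [hx0]
        simp only [Nat.divisors_zero, Finset.card_empty, Nat.cast_zero]
        have : (0 : ℝ) ≤ max F (Cd * 2 ^ δ) := le_max_of_le_left (by linarith)
        positivity
      · have h4 := hdiv x hx0
        have h5 : (x : ℝ) ^ δ ≤ 2 ^ δ * (k : ℝ) ^ B := by
          have h6 : (x : ℝ) ≤ 2 * (k : ℝ) ^ (4 * a) := by exact_mod_cast h3
          have h7 : (x : ℝ) ^ δ ≤ (2 * (k : ℝ) ^ (4 * a)) ^ δ :=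
            Real.rpow_le_rpow (Nat.cast_nonneg _) h6 hδ0.le
          refine h7.trans (le_of_eq ?_)
          rw [Real.mul_rpow (by norm_num) (by positivity), ← Real.rpow_natCast,
            ← Real.rpow_mul hk0.le]
          congr 2
          rw [hδ]
          push_cast
          field_simp
        calc ((x.divisors.card : ℕ) : ℝ) ≤ Cd * (x : ℝ) ^ δ := h4
          _ ≤ Cd * (2 ^ δ * (k : ℝ) ^ B) := mul_le_mul_of_nonneg_left h5 (by linarith)
          _ = (Cd * 2 ^ δ) * (k : ℝ) ^ B := by ring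
          _ ≤ max F (Cd * 2 ^ δ) * (k : ℝ) ^ B :=
            mul_le_mul_of_nonneg_right (le_max_right _ _) hkB

end Pool.Agent.TBP.H80
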